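import Pool.Agent.H319c.Rev

/-!
# MP_c084f5_al : (3) implies (1) and (2) when at most two of the generators divide `h`, or divide
`h + n α`

`Cond1 k a`, `Cond2 k a` are the conditions (1) and (2) of the problem for the semigroup
`H = ⟨a_1, …, a_n⟩` and the field `k`; `IsAP a h α` says `PF(H) = {h + α, …, h + (n-1) α}` and
`α > 0`; `InH a x` says `x ∈ H`.
-/

namespace Pool.Agent.Results.MP_c084f5_al.FewDivisors

open Q122.DetNS

universe u

/-- Let `n ≥ 3`, let `a_1, …, a_n` be the minimal generators of a numerical semigroup `H` and let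
`PF(H) = {h + α, …, h + (n-1) α}`, `α > 0`. Suppose that for `T = h` or for `T = h + n α` at most
two of the generators satisfy `T - a_l ∈ H`. Then conditions (1) and (2) hold over every field. -/
theorem result :
    ∀ (k : Type u) [Field k] (n : ℕ) (a : Fin n → ℕ) (h α : ℤ), 3 ≤ n → IsMinGen a →
      IsAP a h α →
      ((∃ i j, ∀ l, InH a (h - a l) → l = i ∨ l = j) ∨
        (∃ i j, ∀ l, InH a (h + n * α - a l) → l = i ∨ l = j)) →
      Cond1 k a ∧ Cond2 k a := by
  intro k _ n a h α hn ha hAP hcase
  have h2 : Cond2 k a := by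
    rcases hcase with hU | hU
    · exact caseB hn ha hAP (small_unique hn ha (hAP.dir hn ha) hU) k
    · exact caseB' hn ha hAP (small_unique' hn ha hAP hU) k
  exact ⟨(cond1_iff_cond2 (fun i => (ha.2 i).1)).2 h2, h2⟩

end Pool.Agent.Results.MP_c084f5_al.FewDivisors
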