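import Pool.Agent.H610DN.Pairs

/-!
# MP_c084f5_al : (3) implies (2) when `h` factors in blocks of at most two generators

`IsMinGen a`: `a_1, …, a_n` is the minimal generating system of a numerical semigroup `H`;
`IsAP a h α`: `α > 0` and `PF(H) = {h + α, …, h + (n-1) α}`; `Cond2 k a`: condition (2) of the
problem for `H` and the field `k`.
-/

namespace Pool.Agent.Results.MP_c084f5_al.TwoCoord

open Q122.DetNS

universe u

/-- Let `n ≥ 3`, let `a_1, …, a_n` be the minimal generators of a numerical semigroup `H` and let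
`PF(H) = {h + α, …, h + (n-1) α}`. Suppose that the indices can be grouped in blocks `{i, σ i}` of
at most two elements (`σ` an involution) such that for any two factorizations of `h` the
contribution of every block is the same. Then `h` has exactly one factorization, and condition (2)
holds over every field. This applies in particular when any two factorizations of `h` agree
outside of two indices `p`, `q` (for instance if at most two of the `h - a_i` are in `H`). -/
theorem result :
    ∀ (k : Type u) [Field k] (n : ℕ) (a : Fin n → ℕ) (h α : ℤ), 3 ≤ n → IsMinGen a →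
      IsAP a h α →
      ((∃ σ : Fin n → Fin n, (∀ i, σ (σ i) = i) ∧
          ∀ v w : Fin n → ℕ, h = ∑ i, (v i : ℤ) * a i → h = ∑ i, (w i : ℤ) * a i →
            ∀ i, (v i : ℤ) * a i + (v (σ i) : ℤ) * a (σ i) =
              (w i : ℤ) * a i + (w (σ i) : ℤ) * a (σ i)) ∨
        (∃ p q : Fin n, ∀ v w : Fin n → ℕ, h = ∑ i, (v i : ℤ) * a i →
          h = ∑ i, (w i : ℤ) * a i → ∀ i, i ≠ p → i ≠ q → v i = w i)) →
      (∃! v : Fin n → ℕ, h = ∑ i, (v i : ℤ) * a i) ∧ Cond2 k a := by
  intro k _ n a h α hn ha hAP hcase
  have hu : ∃! v : Fin n → ℕ, h = ∑ i, (v i : ℤ) * a i := by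
    rcases hcase with ⟨σ, hσ, hb⟩ | ⟨p, q, hpq⟩
    · exact Pool.Agent.H610DN.unique_of_pairs hn ha hAP σ hσ hb
    · exact Pool.Agent.H610DN.unique_of_two hn ha hAP p q hpq
  exact ⟨hu, caseB hn ha hAP hu k⟩

end Pool.Agent.Results.MP_c084f5_al.TwoCoord
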