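import Pool.Agent.H319c.Rev

/-!
# MP_c084f5_al : (3) implies (1) and (2) when `h + n α` has exactly one factorization

`Cond1 k a`, `Cond2 k a` are the conditions (1) and (2) of the problem for the semigroup
`H = ⟨a_1, …, a_n⟩` and the field `k`; `IsAP a h α` says `PF(H) = {h + α, …, h + (n-1) α}` and
`α > 0`.
-/

namespace Pool.Agent.Results.MP_c084f5_al.UniqueTop

open Q122.DetNS

universe u

/-- Let `n ≥ 3`, let `a_1, …, a_n` be the minimal generators of a numerical semigroup `H` and let
`PF(H) = {h + α, …, h + (n-1) α}`, `α > 0`. If `h + n α` has exactly one factorization, then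
conditions (1) and (2) hold over every field. -/
theorem result :
    ∀ (k : Type u) [Field k] (n : ℕ) (a : Fin n → ℕ) (h α : ℤ), 3 ≤ n → IsMinGen a →
      IsAP a h α → (∃! v : Fin n → ℕ, h + n * α = ∑ i, (v i : ℤ) * a i) →
      Cond1 k a ∧ Cond2 k a := by
  intro k _ n a h α hn ha hAP hu
  have h2 : Cond2 k a := caseB' hn ha hAP hu k
  exact ⟨(cond1_iff_cond2 (fun i => (ha.2 i).1)).2 h2, h2⟩

end Pool.Agent.Results.MP_c084f5_al.UniqueTop
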